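import Pool.Agent.Helper31.BQ.Stmts

/-! Row PD of `Pool/Agent/Helper31/BQ/Stmts.lean` (MP_04557e_an). -/

set_option autoImplicit false

namespace Pool.Agent.Helper61.BQ

open Filter Topology
open Pool.Agent.Helper31.BQ

universe u

section

variable {𝕜 : Type} [RCLike 𝕜] {D : Type u} [NormedAddCommGroup D] [NormedSpace 𝕜 D]

/-- values at the first `n` vectors -/
noncomputable def pdL (d : ℕ → D) (n : ℕ) : StrongDual 𝕜 D →ₗ[ℝ] (Fin n → 𝕜) where
  toFun f k := f (d k)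
  map_add' f g := rfl
  map_smul' r f := rfl

theorem pdL_cont (d : ℕ → D) (n : ℕ) : Continuous (pdL (𝕜 := 𝕜) d n) :=
  continuous_pi fun k => (ContinuousLinearMap.apply 𝕜 𝕜 (d k)).continuous

/-- the functionals vanishing at the first `n` vectors -/
noncomputable def pdM (𝕜 : Type) [RCLike 𝕜] {D : Type u} [NormedAddCommGroup D] [NormedSpace 𝕜 D]
    (d : ℕ → D) (n : ℕ) : Submodule ℝ (StrongDual 𝕜 D) :=
  LinearMap.ker (pdL (𝕜 := 𝕜) d n)

theorem mem_pdM (d : ℕ → D) (n : ℕ) (f : StrongDual 𝕜 D) :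
    f ∈ pdM 𝕜 d n ↔ ∀ k, k < n → f (d k) = 0 := by
  constructor
  · intro h k hk
    exact congrFun (LinearMap.mem_ker.1 h) ⟨k, hk⟩
  · intro h
    exact LinearMap.mem_ker.2 (funext fun k => h k k.2)

/-- the induced injective map on the quotient -/
noncomputable def pdF (d : ℕ → D) (n : ℕ) : (StrongDual 𝕜 D ⧸ pdM 𝕜 d n) →ₗ[ℝ] (Fin n → 𝕜) :=
  (pdM 𝕜 d n).liftQ (pdL d n) le_rfl

theorem pdF_inj (d : ℕ → D) (n : ℕ) : Function.Injective (pdF (𝕜 := 𝕜) d n) :=
  LinearMap.ker_eq_bot.1 (Submodule.ker_liftQ_eq_bot _ _ _ le_rfl)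

theorem pdF_cont (d : ℕ → D) (n : ℕ) : Continuous (pdF (𝕜 := 𝕜) d n) :=
  (pdM 𝕜 d n).isQuotientMap_mkQ.continuous_iff.2 (pdL_cont d n)

end

/-- Row PD. -/
theorem st_PD : ST_PD.{u} := by
  intro 𝕜 _ D _ _ hsep
  let d : ℕ → D := TopologicalSpace.denseSeq D
  have hd : DenseRange d := TopologicalSpace.denseRange_denseSeq D
  refine ⟨pdM 𝕜 d, ?_, ?_, ?_, ?_, ?_⟩
  · intro n m hnm f hf
    rw [mem_pdM] at hf ⊢
    exact fun k hk => hf k (hk.trans_le hnm)
  · intro n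
    have h : (pdM 𝕜 d n : Set (StrongDual 𝕜 D)) = (pdL d n) ⁻¹' {0} := rfl
    rw [h]
    exact isClosed_singleton.preimage (pdL_cont d n)
  · intro n
    exact FiniteDimensional.of_injective (pdF d n) (pdF_inj d n)
  · intro x ε hε
    by_cases hc : ‖x‖ - ε < 0
    · exact ⟨0, fun y _ => hc.le.trans (norm_nonneg y)⟩
    push Not at hc
    have hopen : IsOpen {v : D | (‖x‖ - ε) * ‖v‖ < ‖x v‖} :=
      isOpen_lt (by fun_prop) (by fun_prop)
    have hne : {v : D | (‖x‖ - ε) * ‖v‖ < ‖x v‖}.Nonempty := by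
      by_contra hcon
      rw [Set.not_nonempty_iff_eq_empty, Set.eq_empty_iff_forall_notMem] at hcon
      have h1 : ‖x‖ ≤ ‖x‖ - ε :=
        x.opNorm_le_bound hc fun v => not_lt.1 (hcon v)
      linarith
    obtain ⟨k, hk⟩ := hd.exists_mem_open hopen hne
    refine ⟨k + 1, fun y hy => ?_⟩
    rw [mem_pdM] at hy
    have h2 : x (d k) = y (d k) := sub_eq_zero.1 (hy k (Nat.lt_succ_self k))
    have h3 : (‖x‖ - ε) * ‖d k‖ < ‖y‖ * ‖d k‖ := by
      have h4 : (‖x‖ - ε) * ‖d k‖ < ‖x (d k)‖ := hk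
      rw [h2] at h4
      exact h4.trans_le (y.le_opNorm _)
    exact (lt_of_mul_lt_mul_right h3 (norm_nonneg _)).le
  · intro x C hC hconv
    let B : Set (WeakDual 𝕜 D) := WeakDual.toStrongDual ⁻¹' Metric.closedBall 0 C
    have hBc : IsCompact B := WeakDual.isCompact_closedBall (𝕜 := 𝕜) (E := D) 0 C
    let U : Ultrafilter ℕ := Ultrafilter.of atTop
    have hU : (U : Filter ℕ) ≤ atTop := Ultrafilter.of_le atTop
    let X : ℕ → WeakDual 𝕜 D := fun j => StrongDual.toWeakDual (x j)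
    have hXB : ∀ j, X j ∈ B := by
      intro j
      change x j ∈ Metric.closedBall (0 : StrongDual 𝕜 D) C
      rw [mem_closedBall_zero_iff]
      exact hC j
    obtain ⟨y, _, hy⟩ := hBc.ultrafilter_le_nhds (U.map X)
      (le_principal_iff.2 (Filter.mem_map.2 (Filter.univ_mem' hXB)))
    have hy' : Tendsto X U (𝓝 y) := hy
    have hev : ∀ v, Tendsto (fun j => x j v) U (𝓝 (y v)) := fun v =>
      ((WeakDual.eval_continuous v).tendsto y).comp hy'
    refine ⟨WeakDual.toStrongDual y, fun m => ?_⟩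
    obtain ⟨v, hv⟩ := hconv m
    have h5 : v = (pdM 𝕜 d m).mkQ (WeakDual.toStrongDual y) := by
      apply pdF_inj d m
      have h1 : Tendsto (fun j => pdF d m ((pdM 𝕜 d m).mkQ (x j))) U (𝓝 (pdF d m v)) :=
        ((pdF_cont d m).tendsto v).comp (hv.mono_left hU)
      have h2 : Tendsto (fun j => pdF d m ((pdM 𝕜 d m).mkQ (x j))) U
          (𝓝 (pdF d m ((pdM 𝕜 d m).mkQ (WeakDual.toStrongDual y)))) :=
        tendsto_pi_nhds.2 fun k => hev (d k)
      exact tendsto_nhds_unique h1 h2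
    rw [← h5]
    exact hv

end Pool.Agent.Helper61.BQ
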