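import Pool.Agent.Helper31.BQ.Stmts

/-! Row GN of `Pool/Agent/Helper31/BQ/Stmts.lean` (MP_04557e_an). -/

set_option autoImplicit false

namespace Pool.Agent.Helper61.BQ

open Filter Topology
open Pool.Agent.Helper31.BQ

universe u

theorem rs_mk {E : Type u} [NormedAddCommGroup E] [NormedSpace ℝ E] {M : ℕ → Submodule ℝ E}
    (hM : Antitone M) (n : ℕ) (x : E) : rs hM n ((M (n + 1)).mkQ x) = (M n).mkQ x := rfl

theorem mk_mem {E : Type u} [NormedAddCommGroup E] [NormedSpace ℝ E] {M : ℕ → Submodule ℝ E}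
    (hM : Antitone M) (x : E) (hx : ‖x‖ ≤ 1) :
    (fun n => (M n).mkQ x) ∈ XX hM := by
  refine ⟨fun n => (Submodule.Quotient.norm_mk_le (M n) x).trans hx, fun N => ?_⟩
  have h : ∀ n ∈ Finset.range N, ‖rs hM n ((M (n + 1)).mkQ x) - (M n).mkQ x‖ = 0 := by
    intro n _
    rw [rs_mk, sub_self, norm_zero]
  rw [Finset.sum_eq_zero h]
  exact zero_le_one

theorem zero_mem' {E : Type u} [NormedAddCommGroup E] [NormedSpace ℝ E] {M : ℕ → Submodule ℝ E}
    (hM : Antitone M) : (0 : ∀ n, E ⧸ M n) ∈ XX hM := by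
  have h := mk_mem hM (0 : E) (by rw [norm_zero]; exact zero_le_one)
  have e : (fun n => (M n).mkQ (0 : E)) = 0 := by
    funext n
    exact map_zero _
  rw [e] at h
  exact h

/-- Row GN. -/
theorem st_GN (hXC : ST_XC.{u}) (hFL : ST_FL.{u}) (hB1 : ST_B1.{u}) (hUL : ST_UL.{u})
    (hAL : ST_AL.{u}) : ST_GN.{u} := by
  intro E _ _ _ M hM hPP hQP
  obtain ⟨hK, hcx, hT2, hLC, hTAG, hCS⟩ := hXC E M hM hPP
  obtain ⟨hex, huni⟩ := hFL E M hM hPP
  choose f hf using fun φ : XX hM => hex φ.1 φ.2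
  have haff : IsAffineOn (XX hM) f := by
    intro x y z t ht0 ht1 hz
    refine huni z.1 _ _ (hf z) ?_
    have h1 := ((hf x).const_mul t).add ((hf y).const_mul (1 - t))
    rw [mul_zero, mul_zero, add_zero] at h1
    refine squeeze_zero (fun n => norm_nonneg _) (fun n => ?_) h1
    have h2 : (M n).mkQ (t • f x + (1 - t) • f y) - z.1 n =
        t • ((M n).mkQ (f x) - x.1 n) + (1 - t) • ((M n).mkQ (f y) - y.1 n) := by
      have h3 : z.1 n = t • x.1 n + (1 - t) • y.1 n := by rw [hz]; rfl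
      rw [h3, map_add, map_smul, map_smul, smul_sub, smul_sub]
      abel
    rw [h2]
    refine (norm_add_le _ _).trans (le_of_eq ?_)
    rw [norm_smul, norm_smul, Real.norm_of_nonneg ht0, Real.norm_of_nonneg (sub_nonneg.2 ht1)]
  have hb1 : IsBaireOne f := hUL (XX hM) E f fun ε hε => hB1 E M hM hPP f hf ε hε
  obtain ⟨F, hF, hFt⟩ := hQP (∀ n, E ⧸ M n) (XX hM) hK hcx f haff hb1
  choose T hT hTx using fun i => hAL E M hM hPP hK (F i) (hF i).1 (hF i).2
  refine ⟨T, hT, ?_⟩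
  have hlim : ∀ (φ : XX hM) (y : E), (φ : ∀ n, E ⧸ M n) = (fun n => (M n).mkQ y) → f φ = y := by
    intro φ y h
    refine huni φ.1 _ _ (hf φ) ?_
    have e : (fun n => ‖(M n).mkQ y - φ.1 n‖) = fun _ => (0 : ℝ) := by
      funext n
      rw [h, sub_self, norm_zero]
    unfold LimTo
    rw [e]
    exact tendsto_const_nhds
  have hball : ∀ u : E, ‖u‖ ≤ 1 → Tendsto (fun i => T i u) atTop (𝓝 u) := by
    intro u hu
    let φ : XX hM := ⟨_, mk_mem hM u hu⟩
    let ψ : XX hM := ⟨0, zero_mem' hM⟩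
    have e1 : (fun i => T i u) = fun i => F i φ - F i ψ :=
      funext fun i => hTx i u hu φ ψ rfl rfl
    rw [e1]
    have e2 : f φ = u := hlim φ u rfl
    have e3 : f ψ = 0 := hlim ψ 0 (funext fun n => (map_zero ((M n).mkQ)).symm)
    have h4 := (hFt φ).sub (hFt ψ)
    rw [e2, e3, sub_zero] at h4
    exact h4
  intro x
  have hc : (0 : ℝ) < ‖x‖ + 1 := by positivity
  have hu : ‖(‖x‖ + 1)⁻¹ • x‖ ≤ 1 := by
    rw [norm_smul, norm_inv, Real.norm_of_nonneg hc.le, inv_mul_le_iff₀ hc]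
    linarith
  have h5 := (hball _ hu).const_smul (‖x‖ + 1)
  have e4 : (‖x‖ + 1) • (‖x‖ + 1)⁻¹ • x = x := smul_inv_smul₀ hc.ne' x
  have e5 : (fun i => (‖x‖ + 1) • T i ((‖x‖ + 1)⁻¹ • x)) = fun i => T i x := by
    funext i
    rw [← map_smul, e4]
  rw [e4, e5] at h5
  exact h5

end Pool.Agent.Helper61.BQ
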